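import Pool.Agent.Helper15.FC.St1

/-!
# Project FC, module FAC: factorization of the L-polynomial
-/

set_option autoImplicit false

namespace Pool.Agent.Helper8.FC

open Pool.Agent.Helper15.FC Polynomial

/-- every polynomial with constant term one is a product of factors `1 - α X` -/
lemma factor (P : ℂ[X]) (h0 : P.coeff 0 = 1) :
    ∃ (n : ℕ) (α : Fin n → ℂ), n ≤ P.natDegree ∧ P = ∏ i, (1 - C (α i) * X) := by
  have hne : P.coeff 0 ≠ 0 := by rw [h0]; exact one_ne_zero
  have hR : P.reverse.Monic := by
    unfold Polynomial.Monic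
    rw [Polynomial.reverse_leadingCoeff, Polynomial.trailingCoeff_eq_coeff_zero hne, h0]
  have hsp : P.reverse.Splits := IsAlgClosed.splits P.reverse
  have hprod : P.reverse = (P.reverse.roots.map (fun z => X - C z)).prod := by
    have := hsp.eq_prod_roots
    rw [hR.leadingCoeff, C_1, one_mul] at this
    exact this
  have htr : P.natTrailingDegree = 0 := by
    rw [Polynomial.natTrailingDegree_eq_zero]
    exact Or.inr hne
  have hdeg : P.reverse.natDegree = P.natDegree := by
    rw [Polynomial.reverse_natDegree, htr, Nat.sub_zero]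
  have hrr : P.reverse.reverse = P := by
    unfold Polynomial.reverse
    ext k
    have h1 : (reflect P.natDegree P).natDegree = P.natDegree := hdeg
    rw [coeff_reflect, coeff_reflect, h1, Polynomial.revAt_invol]
  have hlin : ∀ z : ℂ, (X - C z : ℂ[X]).reverse = 1 - C z * X := by
    intro z
    have h1 : (X - C z : ℂ[X]) = X + C (-z) := by rw [C_neg]; ring
    have h2 : (X : ℂ[X]).reverse = 1 := by
      have := Polynomial.reverse_mul_X (1 : ℂ[X])
      rw [one_mul] at this
      rw [this, ← C_1, Polynomial.reverse_C]
    rw [h1, Polynomial.reverse_add_C, h2, natDegree_X, C_neg, pow_one]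
    ring
  set l : List ℂ := P.reverse.roots.toList with hl
  have hprod2 : P.reverse = (l.map (fun z => (X - C z : ℂ[X]))).prod := by
    rw [hprod]
    conv_lhs => rw [← Multiset.coe_toList (P.reverse.roots)]
    rw [Multiset.map_coe, Multiset.prod_coe]
  have hrevl : ∀ m : List ℂ, (m.map (fun z => (X - C z : ℂ[X]))).prod.reverse =
      (m.map (fun z => (1 - C z * X : ℂ[X]))).prod := by
    intro m
    induction m with
    | nil =>
      simp only [List.map_nil, List.prod_nil]
      rw [← C_1, Polynomial.reverse_C]
    | cons a m ih =>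
      simp only [List.map_cons, List.prod_cons]
      rw [Polynomial.reverse_mul_of_domain, ih, hlin]
  refine ⟨l.length, fun i => l[i.1], ?_, ?_⟩
  · rw [hl, Multiset.length_toList, ← hdeg]
    exact Polynomial.card_roots' _
  · rw [Fin.prod_univ_fun_getElem l (fun z => (1 - C z * X : ℂ[X])), ← hrevl, ← hprod2, hrr]

/-- the Newton identity in power series, for a product of factors `1 - α X` -/
lemma newton {ι : Type} (S : Finset ι) (α : ι → ℂ) :
    (PowerSeries.X : PowerSeries ℂ) * ((derivative (∏ i ∈ S, (1 - C (α i) * X)) : ℂ[X]) : PowerSeries ℂ) +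
      ((∏ i ∈ S, (1 - C (α i) * X) : ℂ[X]) : PowerSeries ℂ) *
        ∑ i ∈ S, PowerSeries.mk (fun j => if j = 0 then 0 else α i ^ j) = 0 := by
  classical
  induction S using Finset.induction_on with
  | empty => simp
  | insert a S ha ih =>
    rw [Finset.prod_insert ha, Finset.sum_insert ha]
    set P : ℂ[X] := ∏ i ∈ S, (1 - C (α i) * X) with hP
    set G : PowerSeries ℂ := ∑ i ∈ S, PowerSeries.mk (fun j => if j = 0 then 0 else α i ^ j) with hG
    set g : PowerSeries ℂ := PowerSeries.mk (fun j => if j = 0 then 0 else α a ^ j) with hg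
    have h1 : (1 - PowerSeries.C (α a) * PowerSeries.X) * g = PowerSeries.C (α a) * PowerSeries.X := by
      ext n
      rw [sub_mul, one_mul, map_sub, mul_assoc, PowerSeries.coeff_C_mul, PowerSeries.coeff_C_mul]
      cases n with
      | zero =>
        rw [PowerSeries.coeff_zero_X_mul, PowerSeries.coeff_zero_X, hg, PowerSeries.coeff_mk]
        simp
      | succ n =>
        rw [PowerSeries.coeff_succ_X_mul, hg, PowerSeries.coeff_mk, PowerSeries.coeff_mk,
          PowerSeries.coeff_X]
        by_cases hn : n = 0
        · subst hn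
          simp
        · simp [hn, pow_succ]
          ring
    have h2 : derivative ((1 - C (α a) * X) * P) =
        - C (α a) * P + (1 - C (α a) * X) * derivative P := by
      rw [derivative_mul]
      simp
    rw [h2]
    push_cast
    have h3 : ((1 : ℂ[X]) : PowerSeries ℂ) = 1 := Polynomial.coe_one
    have h4 : ((C (α a) : ℂ[X]) : PowerSeries ℂ) = PowerSeries.C (α a) := Polynomial.coe_C _
    linear_combination (1 - PowerSeries.C (α a) * PowerSeries.X) * ih + (P : PowerSeries ℂ) * h1

theorem hFAC (hNWT : StNWT) : StFAC := by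
  intro F _ _ Χ D hCM hz
  have hA0 : Asum Χ 0 = 1 := by
    have h1 : Mn F 0 = {1} := by
      ext f
      rw [mem_Mn, Finset.mem_singleton]
      constructor
      · rintro ⟨h1, h2⟩
        have h3 := Polynomial.eq_C_of_natDegree_eq_zero h2
        have h4 : f.coeff 0 = 1 := by
          have := h1
          unfold Polynomial.Monic Polynomial.leadingCoeff at this
          rwa [h2] at this
        rw [h3, h4, C_1]
      · rintro rfl
        exact ⟨monic_one, natDegree_one⟩
    unfold Asum
    rw [h1, Finset.sum_singleton, hCM.1]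
  have hD : 1 ≤ D := by
    by_contra h
    have : D = 0 := by omega
    have h1 := hz 0 (by omega)
    rw [hA0] at h1
    exact one_ne_zero h1
  have hcoeff : ∀ d, (Lp Χ D).coeff d = Asum Χ d := by
    intro d
    unfold Lp
    rw [Polynomial.finsetSum_coeff]
    by_cases hd : d < D
    · rw [Finset.sum_eq_single d]
      · rw [Polynomial.coeff_C_mul_X_pow, if_pos rfl]
      · intro b _ hb
        rw [Polynomial.coeff_C_mul_X_pow, if_neg (fun h => hb h.symm)]
      · intro h
        exact absurd (Finset.mem_range.2 hd) h
    · rw [hz d (not_lt.1 hd)]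
      refine Finset.sum_eq_zero fun i hi => ?_
      rw [Polynomial.coeff_C_mul_X_pow, if_neg]
      have := Finset.mem_range.1 hi
      omega
  have hdeg : (Lp Χ D).natDegree ≤ D - 1 := by
    rw [Polynomial.natDegree_le_iff_coeff_eq_zero]
    intro N hN
    rw [hcoeff, hz N (by omega)]
  obtain ⟨n, α, hn, hP⟩ := factor (Lp Χ D) (by rw [hcoeff, hA0])
  refine ⟨n, α, by omega, hP, ?_⟩
  have hnew := newton (Finset.univ : Finset (Fin n)) α
  rw [← hP] at hnew
  have hco : ∀ d : ℕ, (d : ℂ) * Asum Χ d +
      ∑ j ∈ Finset.Icc 1 d, (∑ i, α i ^ j) * Asum Χ (d - j) = 0 := by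
    intro d
    have h1 := congrArg (PowerSeries.coeff d) hnew
    rw [map_add, map_zero] at h1
    have h2 : PowerSeries.coeff d ((PowerSeries.X : PowerSeries ℂ) *
        ((derivative (Lp Χ D) : ℂ[X]) : PowerSeries ℂ)) = (d : ℂ) * Asum Χ d := by
      cases d with
      | zero => simp
      | succ d =>
        rw [PowerSeries.coeff_succ_X_mul, Polynomial.coeff_coe, Polynomial.coeff_derivative, hcoeff]
        push_cast
        ring
    have h3 : PowerSeries.coeff d (((Lp Χ D : ℂ[X]) : PowerSeries ℂ) *
        ∑ i : Fin n, PowerSeries.mk (fun j => if j = 0 then 0 else α i ^ j)) =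
        ∑ j ∈ Finset.Icc 1 d, (∑ i, α i ^ j) * Asum Χ (d - j) := by
      rw [mul_comm, PowerSeries.coeff_mul, Finset.Nat.sum_antidiagonal_eq_sum_range_succ_mk]
      have h4 : ∀ j : ℕ, PowerSeries.coeff j
          (∑ i : Fin n, PowerSeries.mk (fun j => if j = 0 then (0 : ℂ) else α i ^ j)) =
          if j = 0 then 0 else ∑ i, α i ^ j := by
        intro j
        rw [map_sum]
        simp only [PowerSeries.coeff_mk]
        split_ifs
        · simp
        · rfl
      simp only [h4, Polynomial.coeff_coe, hcoeff]
      symm
      have hsub : Finset.Icc 1 d ⊆ Finset.range d.succ := by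
        intro j hj
        rw [Finset.mem_Icc] at hj
        exact Finset.mem_range.2 (by omega)
      rw [← Finset.sum_subset hsub]
      · refine Finset.sum_congr rfl fun j hj => ?_
        rw [Finset.mem_Icc] at hj
        rw [if_neg (by omega)]
      · intro j hj hj2
        rw [Finset.mem_Icc] at hj2
        have := Finset.mem_range.1 hj
        rw [if_pos (by omega), zero_mul]
    rw [h2, h3] at h1
    exact h1
  intro s
  induction s using Nat.strong_induction_on with
  | _ s ih =>
    intro hs
    have h1 := hco s
    rw [hNWT F Χ hCM s, ← Finset.sum_add_distrib] at h1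
    rw [Finset.sum_eq_single s] at h1
    · rw [Nat.sub_self, hA0, mul_one, mul_one] at h1
      exact eq_neg_of_add_eq_zero_left h1
    · intro j hj hjs
      rw [Finset.mem_Icc] at hj
      rw [ih j (by omega) hj.1]
      ring
    · intro h
      exact absurd (Finset.mem_Icc.2 ⟨hs, le_refl s⟩) h

end Pool.Agent.Helper8.FC
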