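import Pool.Agent.Helper15.FC.St3

/-!
# Project FC, module PLA: Plancherel
-/

set_option autoImplicit false

namespace Pool.Agent.Helper8.FC

open Pool.Agent.Helper15.FC Polynomial

/-- two characters trivial on the multiples of `X^m` that agree on `Lw F m` are equal -/
lemma eq_of_Lw {F : Type} [Field F] [Fintype F] {m : ℕ} {η η' : AddChar F[X] ℂ}
    (h1 : η ∈ AC (X ^ m : F[X])) (h2 : η' ∈ AC (X ^ m : F[X])) (h : ∀ g ∈ Lw F m, η g = η' g) :
    η = η' := by
  ext f
  have h3 := Polynomial.modByMonic_add_div f (X ^ m : F[X])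
  have h4 : f %ₘ (X ^ m) ∈ Lw F m := by
    rw [mem_Lw]
    have := Polynomial.degree_modByMonic_lt f (monic_X_pow (R := F) m)
    rwa [Polynomial.degree_X_pow] at this
  rw [← h3, AddChar.map_add_eq_mul, AddChar.map_add_eq_mul, h1, h2, h _ h4]

theorem hPLA (hACF : StACF) (hNTS : StNTS) : StPLA := by
  classical
  intro F _ _ m γ
  obtain ⟨hA1, hA2⟩ := hACF F
  obtain ⟨-, hmem, -, -, -⟩ := hA2 (X ^ m) (monic_X_pow m)
  have hconj : ∀ (ν : AddChar F[X] ℂ) (h : F[X]), (starRingEnd ℂ) (ν (-h)) = ν h := by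
    intro ν h
    have := (hA1 ν (-h)).2
    rw [neg_neg] at this
    exact this.symm
  have horth : ∀ η ∈ ACf (X ^ m : F[X]), ∀ η' ∈ ACf (X ^ m : F[X]),
      ∑ h ∈ Lw F m, η (-h) * η' h = if η = η' then (Fintype.card F : ℂ) ^ m else 0 := by
    intro η hη η' hη'
    by_cases he : η = η'
    · rw [if_pos he, ← he]
      have h1 : ∀ h : F[X], η (-h) * η h = 1 := by
        intro h
        rw [← AddChar.map_add_eq_mul, neg_add_cancel, AddChar.map_zero_eq_one]
      simp only [h1]
      rw [Finset.sum_const, card_Lw, nsmul_eq_mul, mul_one]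
      push_cast
      rfl
    · rw [if_neg he]
      have h1 : ∀ h : F[X], η (-h) * η' h = (η⁻¹ * η') h := by
        intro h
        rw [AddChar.mul_apply, AddChar.inv_apply]
      simp only [h1]
      refine hNTS F (η⁻¹ * η') m ?_
      by_contra hcon
      push Not at hcon
      apply he
      refine eq_of_Lw ((hmem η).1 hη) ((hmem η').1 hη') fun g hg => ?_
      have h2 := hcon g hg
      rw [← h1] at h2
      have h3 : η g * η (-g) = 1 := by
        rw [← AddChar.map_add_eq_mul, add_neg_cancel, AddChar.map_zero_eq_one]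
      calc η g = η g * (η (-g) * η' g) := by rw [h2, mul_one]
        _ = (η g * η (-g)) * η' g := by ring
        _ = η' g := by rw [h3, one_mul]
  have hq : (Fintype.card F : ℂ) ^ m ≠ 0 := by
    refine pow_ne_zero _ ?_
    exact_mod_cast Fintype.card_ne_zero
  have key : ((∑ h ∈ Lw F m, ‖((Fintype.card F : ℂ) ^ m)⁻¹ *
      ∑ η ∈ ACf (X ^ m : F[X]), γ η * η (-h)‖ ^ 2 : ℝ) : ℂ) =
      (((qr F ^ m)⁻¹ * ∑ η ∈ ACf (X ^ m : F[X]), ‖γ η‖ ^ 2 : ℝ) : ℂ) := by
    push_cast
    have h1 : ∀ h : F[X], (‖((Fintype.card F : ℂ) ^ m)⁻¹ *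
        ∑ η ∈ ACf (X ^ m : F[X]), γ η * η (-h)‖ : ℂ) ^ 2 =
        ((Fintype.card F : ℂ) ^ m)⁻¹ * ((Fintype.card F : ℂ) ^ m)⁻¹ *
        ∑ η ∈ ACf (X ^ m : F[X]), ∑ η' ∈ ACf (X ^ m : F[X]),
          γ η * (starRingEnd ℂ) (γ η') * (η (-h) * η' h) := by
      intro h
      rw [← Complex.mul_conj', map_mul, map_inv₀, map_pow, Complex.conj_natCast, map_sum]
      rw [show ∀ a b c d : ℂ, a * b * (c * d) = (a * c) * (b * d) by intro a b c d; ring]
      congr 1
      rw [Finset.sum_mul_sum]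
      refine Finset.sum_congr rfl fun η _ => Finset.sum_congr rfl fun η' _ => ?_
      rw [map_mul, hconj]
      ring
    rw [Finset.sum_congr rfl (fun h _ => h1 h), ← Finset.mul_sum, Finset.sum_comm]
    have h2 : ∀ η ∈ ACf (X ^ m : F[X]), ∑ h ∈ Lw F m, ∑ η' ∈ ACf (X ^ m : F[X]),
        γ η * (starRingEnd ℂ) (γ η') * (η (-h) * η' h) =
        (Fintype.card F : ℂ) ^ m * (‖γ η‖ : ℂ) ^ 2 := by
      intro η hη
      rw [Finset.sum_comm]
      have h3 : ∀ η' ∈ ACf (X ^ m : F[X]), ∑ h ∈ Lw F m,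
          γ η * (starRingEnd ℂ) (γ η') * (η (-h) * η' h) =
          γ η * (starRingEnd ℂ) (γ η') * (if η = η' then (Fintype.card F : ℂ) ^ m else 0) := by
        intro η' hη'
        rw [← Finset.mul_sum, horth η hη η' hη']
      rw [Finset.sum_congr rfl h3, Finset.sum_eq_single η]
      · rw [if_pos rfl, ← Complex.mul_conj']
        ring
      · intro b _ hb
        rw [if_neg (fun h => hb h.symm), mul_zero]
      · intro h
        exact absurd hη h
    rw [Finset.sum_congr rfl h2, ← Finset.mul_sum]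
    field_simp
  exact_mod_cast key

end Pool.Agent.Helper8.FC
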