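import Pool.Agent.Helper15.FC.St2

/-!
# Project FC, module TRV: trivial bound for the L-polynomial
-/

set_option autoImplicit false

namespace Pool.Agent.Helper8.FC

open Pool.Agent.Helper15.FC Polynomial

theorem hTRV : StTRV := by
  intro F _ _ Χ D u hCM hu
  have hq2 : (2 : ℝ) ≤ qr F := by
    unfold qr
    exact_mod_cast Fintype.one_lt_card
  have hu1 : ‖u‖ ≤ 1 := by
    by_contra h
    push Not at h
    have h1 : (1 : ℝ) < ‖u‖ ^ 2 := by nlinarith
    nlinarith
  have hA : ∀ d : ℕ, ‖Asum Χ d‖ ≤ qr F ^ d := by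
    intro d
    unfold Asum
    refine (norm_sum_le _ _).trans ?_
    refine (Finset.sum_le_sum (g := fun _ => (1 : ℝ)) fun f hf => ?_).trans ?_
    · exact hCM.2.2 f (mem_Mn.1 hf).1
    · rw [Finset.sum_const, nsmul_eq_mul, mul_one, card_Mn]
      unfold qr
      push_cast
      exact le_refl _
  have h1 : ‖(Lp Χ D).eval u‖ ≤ ∑ d ∈ Finset.range D, (qr F * ‖u‖) ^ d := by
    unfold Lp
    rw [Polynomial.eval_finsetSum]
    refine (norm_sum_le _ _).trans (Finset.sum_le_sum fun d _ => ?_)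
    rw [Polynomial.eval_mul, Polynomial.eval_C, Polynomial.eval_pow, Polynomial.eval_X, norm_mul,
      norm_pow, mul_pow]
    exact mul_le_mul_of_nonneg_right (hA d) (by positivity)
  refine h1.trans ?_
  have hx0 : 0 ≤ qr F * ‖u‖ := mul_nonneg (by linarith) (norm_nonneg u)
  have hx1 : qr F * ‖u‖ ≤ qr F := by
    have : qr F * ‖u‖ ≤ qr F * 1 := mul_le_mul_of_nonneg_left hu1 (by linarith)
    linarith
  clear h1 hA hCM hu
  induction D with
  | zero => simp
  | succ D ih =>
    rw [Finset.sum_range_succ, pow_succ]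
    have h2 : (qr F * ‖u‖) ^ D ≤ qr F ^ D := pow_le_pow_left₀ hx0 hx1 D
    have h3 : 0 ≤ qr F ^ D := by positivity
    nlinarith

end Pool.Agent.Helper8.FC
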