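import Pool.Agent.Helper15.FC.St4

/-!
# Project FC, module WKL: Weil bound for Kloosterman sums
-/

set_option autoImplicit false

namespace Pool.Agent.Helper8.FC

open Pool.Agent.Helper15.FC Polynomial

section
variable {F : Type} [Field F]

/-- a coefficient of the class of a polynomial modulo `X^2` -/
noncomputable def cf (i : ℕ) (x : AdjoinRoot (X ^ (1 + 1) : F[X])) : F :=
  (AdjoinRoot.modByMonicHom (monic_X_pow (R := F) (1 + 1)) x).coeff i

lemma cf_mk (i : ℕ) (hi : i < 2) (f : F[X]) :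
    cf i (AdjoinRoot.mk (X ^ (1 + 1) : F[X]) f) = f.coeff i := by
  unfold cf
  rw [AdjoinRoot.modByMonicHom_mk]
  have h := Polynomial.modByMonic_add_div f (X ^ (1 + 1) : F[X])
  have h2 := congrArg (fun p : F[X] => p.coeff i) h
  simp only [coeff_add] at h2
  rw [Polynomial.coeff_X_pow_mul', if_neg (by omega), add_zero] at h2
  exact h2

lemma cf_one_zero : cf 0 (1 : AdjoinRoot (X ^ (1 + 1) : F[X])) = 1 := by
  rw [← map_one (AdjoinRoot.mk (X ^ (1 + 1) : F[X])), cf_mk 0 (by norm_num)]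
  simp

lemma cf_one_one : cf 1 (1 : AdjoinRoot (X ^ (1 + 1) : F[X])) = 0 := by
  rw [← map_one (AdjoinRoot.mk (X ^ (1 + 1) : F[X])), cf_mk 1 (by norm_num)]
  simp [Polynomial.coeff_one]

lemma cf_mul_zero (x y : AdjoinRoot (X ^ (1 + 1) : F[X])) : cf 0 (x * y) = cf 0 x * cf 0 y := by
  obtain ⟨f, rfl⟩ := AdjoinRoot.mk_surjective x
  obtain ⟨g, rfl⟩ := AdjoinRoot.mk_surjective y
  rw [← map_mul, cf_mk 0 (by norm_num), cf_mk 0 (by norm_num), cf_mk 0 (by norm_num),
    Polynomial.mul_coeff_zero]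

lemma cf_mul_one (x y : AdjoinRoot (X ^ (1 + 1) : F[X])) :
    cf 1 (x * y) = cf 0 x * cf 1 y + cf 1 x * cf 0 y := by
  obtain ⟨f, rfl⟩ := AdjoinRoot.mk_surjective x
  obtain ⟨g, rfl⟩ := AdjoinRoot.mk_surjective y
  rw [← map_mul, cf_mk 1 (by norm_num), cf_mk 0 (by norm_num), cf_mk 0 (by norm_num),
    cf_mk 1 (by norm_num), cf_mk 1 (by norm_num), Polynomial.mul_coeff_one]

lemma cf_unit (x : AdjoinRoot (X ^ (1 + 1) : F[X])) (h : cf 0 x ≠ 0) : IsUnit x := by
  obtain ⟨f, rfl⟩ := AdjoinRoot.mk_surjective x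
  rw [cf_mk 0 (by norm_num)] at h
  refine IsUnit.of_mul_eq_one (AdjoinRoot.mk (X ^ (1 + 1) : F[X])
    (C (f.coeff 0)⁻¹ - C (f.coeff 1 * ((f.coeff 0)⁻¹) ^ 2) * X)) ?_
  rw [← map_mul, ← map_one (AdjoinRoot.mk (X ^ (1 + 1) : F[X])), AdjoinRoot.mk_eq_mk,
    Polynomial.X_pow_dvd_iff]
  intro d hd
  rw [coeff_sub]
  interval_cases d
  · rw [Polynomial.mul_coeff_zero]
    simp
    field_simp
    simp
  · rw [Polynomial.mul_coeff_one]
    simp [Polynomial.coeff_one]
    field_simp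
    simp

open Classical in
/-- the character `g ↦ ψ(s g'(0)/g(0))` -/
noncomputable def mc (ψ : AddChar F ℂ) (s : F) : MulChar (AdjoinRoot (X ^ (1 + 1) : F[X])) ℂ where
  toFun x := if cf 0 x ≠ 0 then ψ (s * (cf 1 x / cf 0 x)) else 0
  map_one' := by
    rw [cf_one_zero, cf_one_one]
    simp
  map_mul' x y := by
    rw [cf_mul_zero, cf_mul_one]
    by_cases hx : cf 0 x = 0
    · simp [hx]
    · by_cases hy : cf 0 y = 0
      · simp [hy]
      · rw [if_pos hx, if_pos hy, if_pos (mul_ne_zero hx hy), ← AddChar.map_add_eq_mul]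
        congr 1
        field_simp
        ring
  map_nonunit' x hx := by
    show (if cf 0 x ≠ 0 then ψ (s * (cf 1 x / cf 0 x)) else 0) = 0
    rw [if_neg]
    intro h
    exact hx (cf_unit x h)

open Classical in
lemma mc_mk (ψ : AddChar F ℂ) (s : F) (f : F[X]) :
    mc ψ s (AdjoinRoot.mk (X ^ (1 + 1) : F[X]) f) =
      if f.coeff 0 ≠ 0 then ψ (s * (f.coeff 1 / f.coeff 0)) else 0 := by
  show (if cf 0 _ ≠ 0 then ψ (s * (cf 1 _ / cf 0 _)) else 0) = _
  rw [cf_mk 0 (by norm_num), cf_mk 1 (by norm_num)]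

end

theorem hWKL (hWS1 : StWS1) : StWKL := by
  classical
  intro F _ _ ψ a b hψ hab
  have hex : ∃ y : F, ψ y ≠ 1 := by
    by_contra hcon
    push Not at hcon
    apply hψ
    ext y
    rw [hcon y, AddChar.one_apply]
  obtain ⟨y, hy⟩ := hex
  have hnt : NTx (F := F) (N := 1) (mc ψ (-a)) ∨ mc ψ (-b) ≠ 1 := by
    rcases hab with ha | hb
    · left
      refine ⟨1 - C (y / a) * X, by simp, ?_⟩
      rw [mc_mk]
      have h1 : (1 - C (y / a) * X : F[X]).coeff 0 = 1 := by simp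
      have h2 : (1 - C (y / a) * X : F[X]).coeff 1 = -(y / a) := by simp [Polynomial.coeff_one]
      rw [h1, h2, if_pos one_ne_zero]
      rw [show -a * (-(y / a) / 1) = y by field_simp]
      exact hy
    · right
      intro hcon
      have h0 := mc_mk ψ (-b) (1 - C (y / b) * X)
      have h1 : (1 - C (y / b) * X : F[X]).coeff 0 = 1 := by simp
      have h2 : (1 - C (y / b) * X : F[X]).coeff 1 = -(y / b) := by simp [Polynomial.coeff_one]
      rw [h1, h2, if_pos one_ne_zero, show -b * (-(y / b) / 1) = y by field_simp, hcon] at h0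
      rw [MulChar.one_apply] at h0
      · exact hy h0.symm
      · apply cf_unit
        rw [cf_mk 0 (by norm_num), h1]
        exact one_ne_zero
  have h := hWS1 F (X ^ (1 + 1)) 1 (mc ψ (-b)) (mc ψ (-a)) (monic_X_pow _) hnt
  have hsum : ∑ x : F, mc ψ (-b) (AdjoinRoot.mk (X ^ (1 + 1) : F[X]) (X - C x)) *
      mc ψ (-a) (AdjoinRoot.mk (X ^ (1 + 1) : F[X]) (1 - C x * X)) =
      ∑ x ∈ Finset.univ.filter (fun x : F => x ≠ 0), ψ (a * x + b * x⁻¹) := by
    rw [Finset.sum_filter]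
    refine Finset.sum_congr rfl fun x _ => ?_
    rw [mc_mk, mc_mk]
    have h1 : (1 - C x * X : F[X]).coeff 0 = 1 := by simp
    have h2 : (1 - C x * X : F[X]).coeff 1 = -x := by simp [Polynomial.coeff_one]
    have h3 : (X - C x : F[X]).coeff 0 = -x := by simp
    have h4 : (X - C x : F[X]).coeff 1 = 1 := by simp
    rw [h1, h2, h3, h4, if_pos one_ne_zero]
    by_cases hx : x = 0
    · rw [if_neg (by simp [hx]), if_neg (by simp [hx]), zero_mul]
    · rw [if_pos (by simpa using hx), if_pos hx, ← AddChar.map_add_eq_mul]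
      congr 1
      field_simp
      ring
  rw [hsum] at h
  refine h.trans (le_of_eq ?_)
  rw [Polynomial.natDegree_X_pow]
  push_cast
  ring

end Pool.Agent.Helper8.FC
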